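import Mathlib

/-!
Gekeler project, piece D1: `p`-th roots of principal ideals give an additive map to the class group.
-/

set_option autoImplicit false

namespace Pool.Agent.D0H54.GD

open nonZeroDivisors

/-- `p`-th roots of ideals are unique. -/
theorem pow_inj {O : Type*} [CommRing O] [IsDedekindDomain O] {p : ℕ} (hp : p ≠ 0)
    {I J : Ideal O} (h : I ^ p = J ^ p) : I = J := by
  apply le_antisymm
  · exact Ideal.dvd_iff_le.mp ((UniqueFactorizationMonoid.pow_dvd_pow_iff_dvd hp).mp (dvd_of_eq h.symm))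
  · exact Ideal.dvd_iff_le.mp ((UniqueFactorizationMonoid.pow_dvd_pow_iff_dvd hp).mp (dvd_of_eq h))

theorem ringEquiv_coeIdeal {O K : Type*} [CommRing O] [IsDedekindDomain O] [Field K] [Algebra O K]
    [IsFractionRing O K] (σ : O ≃+* O) (I : Ideal O) :
    FractionalIdeal.ringEquivOfRingEquiv K K σ (I : FractionalIdeal O⁰ K) =
      ((I.map σ : Ideal O) : FractionalIdeal O⁰ K) := by
  have : RingHomInvPair (σ : O →+* O) σ.symm := RingHomInvPair.of_ringEquiv σ
  have : RingHomInvPair (σ.symm : O →+* O) (σ : O →+* O) := RingHomInvPair.of_ringEquiv σ.symm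
  ext x
  rw [FractionalIdeal.mem_coeIdeal, ← FractionalIdeal.mem_coe]
  have e : ((FractionalIdeal.ringEquivOfRingEquiv K K σ (I : FractionalIdeal O⁰ K) :
      FractionalIdeal O⁰ K) : Submodule O K) =
      Submodule.map (IsFractionRing.semilinearEquivOfRingEquiv K K σ).toLinearMap
        ((I : FractionalIdeal O⁰ K) : Submodule O K) :=
    FractionalIdeal.ringEquivOfRingEquiv_apply_val K K σ _
  rw [e, Submodule.mem_map]
  constructor
  · rintro ⟨y, hy, rfl⟩
    rw [FractionalIdeal.mem_coe, FractionalIdeal.mem_coeIdeal] at hy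
    obtain ⟨z, hz, rfl⟩ := hy
    exact ⟨σ z, Ideal.mem_map_of_mem σ hz,
      (IsFractionRing.semilinearEquivOfRingEquiv_algebraMap K K σ z).symm⟩
  · rintro ⟨y, hy, rfl⟩
    obtain ⟨z, hz, rfl⟩ := (Ideal.mem_map_iff_of_surjective σ σ.surjective).mp hy
    refine ⟨algebraMap O K z, ?_, IsFractionRing.semilinearEquivOfRingEquiv_algebraMap K K σ z⟩
    rw [FractionalIdeal.mem_coe, FractionalIdeal.mem_coeIdeal]
    exact ⟨z, hz, rfl⟩

theorem mulEquiv_mk0 {O : Type*} [CommRing O] [IsDedekindDomain O] (σ : O ≃+* O) (I J : (Ideal O)⁰)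
    (h : (J : Ideal O) = (I : Ideal O).map σ) :
    ClassGroup.mulEquiv σ (ClassGroup.mk0 I) = ClassGroup.mk0 J := by
  have e1 : Units.mapEquiv
      ((FractionalIdeal.ringEquivOfRingEquiv (FractionRing O) (FractionRing O) σ) :
        FractionalIdeal O⁰ (FractionRing O) ≃* FractionalIdeal O⁰ (FractionRing O))
      (FractionalIdeal.mk0 (FractionRing O) I) = FractionalIdeal.mk0 (FractionRing O) J := by
    apply Units.ext
    rw [Units.coe_mapEquiv]
    show FractionalIdeal.ringEquivOfRingEquiv (FractionRing O) (FractionRing O) σ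
      ((I : Ideal O) : FractionalIdeal O⁰ (FractionRing O)) =
        ((J : Ideal O) : FractionalIdeal O⁰ (FractionRing O))
    rw [ringEquiv_coeIdeal, h]
  have e2 : ClassGroup.mulEquiv σ (ClassGroup.mk0 I) =
      (ClassGroup.equiv (FractionRing O)).symm (QuotientGroup.mk'
        (toPrincipalIdeal O (FractionRing O)).range (Units.mapEquiv
      ((FractionalIdeal.ringEquivOfRingEquiv (FractionRing O) (FractionRing O) σ) :
        FractionalIdeal O⁰ (FractionRing O) ≃* FractionalIdeal O⁰ (FractionRing O))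
      (FractionalIdeal.mk0 (FractionRing O) I))) := by
    unfold ClassGroup.mulEquiv
    rw [MulEquiv.trans_apply, MulEquiv.trans_apply, ClassGroup.equiv_mk0]
    rfl
  rw [e2, e1, MulEquiv.symm_apply_eq, ClassGroup.equiv_mk0]

/-- **Piece D1.** -/
theorem exists_beta {O F : Type*} [CommRing O] [IsDedekindDomain O] [Field F] [Algebra O F]
    [IsFractionRing O F]
    (p : ℕ) (hp : p ≠ 0) {κ : Type*} [AddCommGroup κ] (g : κ → O) (hg0 : ∀ c, g c ≠ 0)
    (hadd : ∀ c c', ∃ x y : O, x ≠ 0 ∧ y ≠ 0 ∧ g (c + c') * x ^ p = g c * g c' * y ^ p)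
    (hpow : ∀ c, ∃ I : Ideal O, Ideal.span {g c} = I ^ p) :
    ∃ β : κ →+ Additive (ClassGroup O),
      (∀ c, p • β c = 0) ∧
      (∀ c, β c = 0 → ∃ (e : Oˣ) (x y : O), x ≠ 0 ∧ y ≠ 0 ∧ g c * x ^ p = e * y ^ p) ∧
      (∀ (σ : O ≃+* O) (c c' : κ), (∃ x y : O, x ≠ 0 ∧ y ≠ 0 ∧ σ (g c) * x ^ p = g c' * y ^ p) →
        ClassGroup.mulEquiv σ (β c).toMul = (β c').toMul) := by
  choose I hI using hpow
  have hI0 : ∀ c, I c ≠ 0 := by
    intro c h
    have h1 := hI c
    rw [h, zero_pow hp] at h1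
    have h2 : Ideal.span {g c} = (⊥ : Ideal O) := h1
    rw [Ideal.span_singleton_eq_bot] at h2
    exact hg0 c h2
  have hI0' : ∀ c, I c ∈ (Ideal O)⁰ := fun c => mem_nonZeroDivisors_of_ne_zero (hI0 c)
  -- the basic comparison
  have key : ∀ (A B : Ideal O) (a b x y : O), Ideal.span {a} = A ^ p → Ideal.span {b} = B ^ p →
      a * x ^ p = b * y ^ p → Ideal.span {x} * A = Ideal.span {y} * B := by
    intro A B a b x y hA hB h
    apply pow_inj hp
    rw [mul_pow, mul_pow, ← hA, ← hB, Ideal.span_singleton_pow, Ideal.span_singleton_pow,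
      Ideal.span_singleton_mul_span_singleton, Ideal.span_singleton_mul_span_singleton,
      mul_comm, h, mul_comm]
  have hmul : ∀ c c', ClassGroup.mk0 ⟨I (c + c'), hI0' (c + c')⟩ =
      ClassGroup.mk0 ⟨I c, hI0' c⟩ * ClassGroup.mk0 ⟨I c', hI0' c'⟩ := by
    intro c c'
    obtain ⟨x, y, hx, hy, h⟩ := hadd c c'
    rw [← map_mul, ClassGroup.mk0_eq_mk0_iff]
    refine ⟨x, y, hx, hy, ?_⟩
    exact key (I (c + c')) (I c * I c') (g (c + c')) (g c * g c') x y (hI _)
      (by rw [mul_pow, ← hI, ← hI, Ideal.span_singleton_mul_span_singleton]) h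
  have hpI : ∀ c, (ClassGroup.mk0 ⟨I c, hI0' c⟩) ^ p = 1 := by
    intro c
    rw [← map_pow]
    have h1 : ((⟨I c, hI0' c⟩ : (Ideal O)⁰) ^ p) =
        ⟨(I c) ^ p, pow_mem (hI0' c) p⟩ := rfl
    rw [h1, ClassGroup.mk0_eq_one_iff, ← hI c]
    exact ⟨⟨g c, rfl⟩⟩
  refine ⟨AddMonoidHom.mk' (fun c => Additive.ofMul (ClassGroup.mk0 ⟨I c, hI0' c⟩)) ?_, ?_, ?_, ?_⟩
  · intro c c'
    show Additive.ofMul _ = _
    rw [hmul c c']
    rfl
  · intro c
    show Additive.ofMul ((ClassGroup.mk0 ⟨I c, hI0' c⟩) ^ p) = 0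
    rw [hpI c]
    rfl
  · intro c hc
    have h1 : ClassGroup.mk0 ⟨I c, hI0' c⟩ = 1 := hc
    rw [ClassGroup.mk0_eq_one_iff] at h1
    obtain ⟨⟨b, hb⟩⟩ := h1
    have hb0 : b ≠ 0 := by
      intro h
      apply hI0 c
      rw [hb, h]
      exact Ideal.span_singleton_eq_bot.mpr rfl
    have h2 : Ideal.span {g c} = Ideal.span {b ^ p} := by
      rw [hI c, hb, ← Ideal.span_singleton_pow]
    rw [Ideal.span_singleton_eq_span_singleton] at h2
    obtain ⟨u, hu⟩ := h2.symm
    refine ⟨u, 1, b, one_ne_zero, hb0, ?_⟩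
    rw [one_pow, mul_one, ← hu, mul_comm]
  · rintro σ c c' ⟨x, y, hx, hy, h⟩
    have hm : (I c).map σ ∈ (Ideal O)⁰ := by
      apply mem_nonZeroDivisors_of_ne_zero
      intro h0
      apply hI0 c
      have h3 : (I c).map σ = ⊥ := h0
      rw [Ideal.map_eq_bot_iff_of_injective σ.injective] at h3
      exact h3
    show ClassGroup.mulEquiv σ (ClassGroup.mk0 ⟨I c, hI0' c⟩) = ClassGroup.mk0 ⟨I c', hI0' c'⟩
    rw [mulEquiv_mk0 σ ⟨I c, hI0' c⟩ ⟨(I c).map σ, hm⟩ rfl, ClassGroup.mk0_eq_mk0_iff]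
    refine ⟨x, y, hx, hy, key ((I c).map σ) (I c') (σ (g c)) (g c') x y ?_ (hI c') h⟩
    rw [← Ideal.map_pow, ← hI c, Ideal.map_span, Set.image_singleton]

end Pool.Agent.D0H54.GD
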