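import Mathlib

namespace Pool.Agent.D0H54.GD

/-- The same statement for an additive map satisfying the Leibniz rule on the ring itself. -/
theorem dvd_count_aux {O : Type*} [CommRing O] [IsDedekindDomain O]
    (p : ℕ) [Fact p.Prime] [CharP O p] (E : O → O) (P : Ideal O) [P.IsPrime] (hP : P ≠ ⊥)
    [Finite (O ⧸ P)]
    (hadd : ∀ x y, E (x + y) = E x + E y) (hmul : ∀ x y, E (x * y) = x * E y + y * E x)
    (T : O) (hT : E T ∉ P)
    (g : O) (H : O) (hgh : E g = H * g) (n : ℕ)
    (h1 : g ∈ P ^ n) (h2 : g ∉ P ^ (n + 1)) : p ∣ n := by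
  by_contra hpn
  -- elementary consequences of the Leibniz rule
  have hE1 : E 1 = 0 := by
    have := hmul 1 1
    simpa using this
  have hpow : ∀ (x : O) (k : ℕ), E (x ^ (k + 1)) = ((k + 1 : ℕ) : O) * x ^ k * E x := by
    intro x k
    induction k with
    | zero => simp
    | succ k ih =>
      rw [pow_succ, hmul, ih]
      push_cast
      ring
  -- n is nonzero and invertible
  obtain ⟨k, rfl⟩ : ∃ k, n = k + 1 := by
    cases n with
    | zero => exact absurd (dvd_zero p) hpn
    | succ k => exact ⟨k, rfl⟩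
  have hnP : ((k + 1 : ℕ) : O) ∉ P := by
    have hco : Nat.Coprime (k + 1) p :=
      ((Fact.out : p.Prime).coprime_iff_not_dvd.2 hpn).symm
    have hb := Int.gcd_eq_gcd_ab (k + 1 : ℕ) (p : ℕ)
    have hg1 : Int.gcd ((k + 1 : ℕ) : ℤ) (p : ℤ) = 1 := by
      rw [Int.gcd_natCast_natCast]; exact hco
    rw [hg1] at hb
    have hb' := congrArg (fun z : ℤ => (z : O)) hb
    have hp0 : (((p : ℕ) : ℤ) : O) = 0 := by
      rw [Int.cast_natCast, CharP.cast_eq_zero O p]
    rw [Int.cast_add, Int.cast_mul, Int.cast_mul, hp0, zero_mul, add_zero] at hb'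
    intro hmem
    have : (1 : O) ∈ P := by
      have h3 := P.mul_mem_right (Int.gcdA ((k + 1 : ℕ) : ℤ) (p : ℤ) : O) hmem
      rw [Int.cast_natCast] at hb'
      have h4 : (1 : O) = ((k + 1 : ℕ) : O) * (Int.gcdA ((k + 1 : ℕ) : ℤ) (p : ℤ) : O) := by
        rw [← Int.cast_natCast (k + 1), ← hb']
        simp
      rw [h4]
      exact h3
    exact (Ideal.IsPrime.ne_top inferInstance) ((Ideal.eq_top_iff_one P).2 this)
  -- the derivation maps P to P outside P^2
  have hout : ∀ π ∈ P, π ∉ P ^ 2 → E π ∈ P := by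
    intro π hπ hπ2
    obtain ⟨J, hJ⟩ : P ∣ Ideal.span {π} := Ideal.dvd_span_singleton.2 hπ
    have hJP : ¬ J ≤ P := by
      intro hle
      apply hπ2
      have : P ^ 2 ∣ Ideal.span {π} := by
        rw [hJ, pow_two]
        exact mul_dvd_mul_left P (Ideal.dvd_iff_le.2 hle)
      exact Ideal.dvd_span_singleton.1 this
    obtain ⟨j, hjJ, hjP⟩ := SetLike.not_le_iff_exists.1 hJP
    -- cancellation
    have hcan : ∀ (m : ℕ) (x : O), π * x ∈ P ^ (m + 1) → x ∈ P ^ m := by
      intro m x hx
      have h3 : P ^ (m + 1) ∣ Ideal.span {π} * Ideal.span {x} := by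
        rw [Ideal.span_singleton_mul_span_singleton]
        exact Ideal.dvd_span_singleton.2 hx
      rw [hJ, pow_succ', mul_assoc] at h3
      have hP0 : P ≠ 0 := hP
      have h4 : P ^ m ∣ J * Ideal.span {x} := (mul_dvd_mul_iff_left hP0).1 h3
      have h5 : j * x ∈ P ^ m :=
        (Ideal.dvd_iff_le.1 h4) (Ideal.mul_mem_mul hjJ (Ideal.mem_span_singleton_self x))
      rcases Ideal.IsPrime.mul_mem_pow P h5 with h6 | h6
      · exact absurd h6 hjP
      · exact h6
    have hcan' : ∀ (m : ℕ) (x : O), π ^ m * x ∈ P ^ (m + 1) → x ∈ P := by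
      intro m
      induction m with
      | zero => intro x hx; simpa using hx
      | succ m ih =>
        intro x hx
        have hx' : π * (π ^ m * x) ∈ P ^ (m + 1 + 1) := by
          rw [← mul_assoc, ← pow_succ']
          exact hx
        exact ih x (hcan _ _ hx')
    -- the element
    have h3 : j ^ (k + 1) * g ∈ Ideal.span {π ^ (k + 1)} := by
      rw [← Ideal.span_singleton_pow, hJ, mul_pow, mul_comm (j ^ (k + 1))]
      exact Ideal.mul_mem_mul h1 (Ideal.pow_mem_pow hjJ _)
    obtain ⟨u, hu⟩ := Ideal.mem_span_singleton'.1 h3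
    have hjk : j ^ (k + 1) ∉ P := fun hh => hjP (Ideal.IsPrime.mem_of_pow_mem inferInstance _ hh)
    have huP : u ∉ P := by
      intro hh
      have h4 : j ^ (k + 1) * g ∈ P ^ (k + 1 + 1) := by
        rw [← hu, pow_succ' P]
        exact Ideal.mul_mem_mul hh (Ideal.pow_mem_pow hπ _)
      rcases Ideal.IsPrime.mul_mem_pow P h4 with h5 | h5
      · exact hjk h5
      · exact h2 h5
    have h4 : E (j ^ (k + 1) * g) ∈ P ^ (k + 1) := by
      rw [hmul, hgh]
      refine Ideal.add_mem _ ?_ ?_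
      · rw [← mul_assoc]; exact Ideal.mul_mem_left _ _ h1
      · exact Ideal.mul_mem_right _ _ h1
    rw [← hu, hmul, hpow] at h4
    have h5 : π ^ (k + 1) * E u ∈ P ^ (k + 1) :=
      Ideal.mul_mem_right _ _ (Ideal.pow_mem_pow hπ _)
    have h6 : π ^ k * (u * ((k + 1 : ℕ) : O) * E π) ∈ P ^ (k + 1) := by
      have h7 := Ideal.sub_mem _ h4 h5
      have h8 : u * (((k + 1 : ℕ) : O) * π ^ k * E π) + π ^ (k + 1) * E u - π ^ (k + 1) * E u
          = π ^ k * (u * ((k + 1 : ℕ) : O) * E π) := by ring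
      rw [h8] at h7
      exact h7
    have h9 := hcan' k _ h6
    rcases Ideal.IsPrime.mem_or_mem inferInstance h9 with h10 | h10
    · rcases Ideal.IsPrime.mem_or_mem inferInstance h10 with h11 | h11
      · exact absurd h11 huP
      · exact absurd h11 hnP
    · exact h10
  have hin2 : ∀ x ∈ P ^ 2, E x ∈ P := by
    intro x hx
    rw [pow_two] at hx
    refine Submodule.mul_induction_on hx ?_ ?_
    · intro a ha b hb
      rw [hmul]
      exact P.add_mem (P.mul_mem_right _ ha) (P.mul_mem_right _ hb)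
    · intro a b ha hb
      rw [hadd]
      exact P.add_mem ha hb
  have hin : ∀ x ∈ P, E x ∈ P := by
    intro x hx
    by_cases h3 : x ∈ P ^ 2
    · exact hin2 x h3
    · exact hout x hx h3
  -- the residue field is finite
  haveI hmax : P.IsMaximal := Ideal.IsPrime.isMaximal inferInstance hP
  have hfin : ∀ x, E x ∈ P := by
    intro x
    letI : Field (O ⧸ P) := Ideal.Quotient.field P
    letI : Fintype (O ⧸ P) := Fintype.ofFinite _
    have hq : (Ideal.Quotient.mk P x) ^ (Fintype.card (O ⧸ P)) = Ideal.Quotient.mk P x :=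
      FiniteField.pow_card _
    have hc0 : ((Fintype.card (O ⧸ P) : ℕ) : O ⧸ P) = 0 := Nat.cast_card_eq_zero _
    obtain ⟨m, hm⟩ : ∃ m, Fintype.card (O ⧸ P) = m + 1 :=
      ⟨Fintype.card (O ⧸ P) - 1, by have := Fintype.card_pos (α := O ⧸ P); omega⟩
    rw [hm] at hq hc0
    have hxm : x ^ (m + 1) - x ∈ P := by
      rw [← Ideal.Quotient.mk_eq_mk_iff_sub_mem, map_pow]
      exact hq
    have hmP : ((m + 1 : ℕ) : O) ∈ P := by
      rw [← Ideal.Quotient.eq_zero_iff_mem, map_natCast]
      exact hc0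
    have h3 := hin _ hxm
    have h4 : E (x ^ (m + 1)) = E (x ^ (m + 1) - x) + E x := by
      rw [← hadd]
      ring_nf
    have h5 : E x = ((m + 1 : ℕ) : O) * x ^ m * E x - E (x ^ (m + 1) - x) := by
      rw [← hpow, h4]; ring
    rw [h5]
    exact P.sub_mem (P.mul_mem_right _ (P.mul_mem_right _ hmP)) h3
  exact hT (hfin T)

theorem dvd_count {O F : Type*} [CommRing O] [IsDedekindDomain O] [Field F] [Algebra O F]
    [IsFractionRing O F]
    (p : ℕ) [Fact p.Prime] [CharP F p] (D : Derivation ℤ F F) (P : Ideal O) [P.IsPrime]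
    (hP : P ≠ ⊥) [Finite (O ⧸ P)]
    (T : O) (hT : D (algebraMap O F T) = 1) (s : O) (hs : s ∉ P)
    (hDO : ∀ x : O, ∃ y : O, D (algebraMap O F x) * algebraMap O F s = algebraMap O F y)
    (g : O) (hg : g ≠ 0) (h : F) (hgh : D (algebraMap O F g) = h * algebraMap O F g)
    (hh : ∃ y : O, h * algebraMap O F s = algebraMap O F y) (n : ℕ)
    (h1 : g ∈ P ^ n) (h2 : g ∉ P ^ (n + 1)) : p ∣ n := by
  have hinj : Function.Injective (algebraMap O F) := IsFractionRing.injective O F
  haveI : CharP O p := (RingHom.charP_iff (algebraMap O F) hinj p).2 inferInstance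
  choose E hE using hDO
  obtain ⟨H, hH⟩ := hh
  have hadd : ∀ x y, E (x + y) = E x + E y := by
    intro x y
    apply hinj
    rw [map_add, ← hE, ← hE, ← hE, map_add, map_add, add_mul]
  have hmul : ∀ x y, E (x * y) = x * E y + y * E x := by
    intro x y
    apply hinj
    rw [map_add, map_mul, map_mul, ← hE, ← hE, ← hE, map_mul, D.leibniz, smul_eq_mul,
      smul_eq_mul]
    ring
  refine dvd_count_aux p E P hP hadd hmul T ?_ g H ?_ n h1 h2
  · have : E T = s := by
      apply hinj
      rw [← hE, hT, one_mul]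
    rw [this]
    exact hs
  · apply hinj
    rw [← hE, hgh, map_mul, ← hH]
    ring

end Pool.Agent.D0H54.GD
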