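import Mathlib

namespace Pool.Agent.D0H54.GD

open UniqueFactorizationMonoid in
theorem exists_root {O : Type*} [CommRing O] [IsDedekindDomain O] (p : ℕ) (hp : p ≠ 0) (g : O)
    (hg : g ≠ 0)
    (h : ∀ P : Ideal O, P.IsPrime → P ≠ ⊥ → ∀ n, g ∈ P ^ n → g ∉ P ^ (n + 1) → p ∣ n) :
    ∃ I : Ideal O, Ideal.span {g} = I ^ p := by
  classical
  have hI0 : (Ideal.span {g} : Ideal O) ≠ 0 := by
    rw [Ne, Ideal.zero_eq_bot, Ideal.span_singleton_eq_bot]
    exact hg
  have key : ∀ P ∈ normalizedFactors (Ideal.span {g} : Ideal O),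
      p ∣ (normalizedFactors (Ideal.span {g} : Ideal O)).count P := by
    intro P hP
    have hPp : Prime P := prime_of_normalized_factor P hP
    have hPb : P ≠ ⊥ := hPp.ne_zero
    have hPi : P.IsPrime := Ideal.isPrime_of_prime hPp
    set n := (normalizedFactors (Ideal.span {g} : Ideal O)).count P with hn
    have hem : emultiplicity P (Ideal.span {g} : Ideal O) = (n : ℕ∞) := by
      rw [emultiplicity_eq_count_normalizedFactors hPp.irreducible hI0, normalize_eq, hn]
    refine h P hPi hPb n ?_ ?_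
    · have h1 : P ^ n ∣ Ideal.span {g} := pow_dvd_of_le_emultiplicity (le_of_eq hem.symm)
      exact (Ideal.dvd_span_singleton).1 h1
    · intro hmem
      have h1 : P ^ (n + 1) ∣ Ideal.span {g} := (Ideal.dvd_span_singleton).2 hmem
      have h2 := le_emultiplicity_of_pow_dvd h1
      rw [hem] at h2
      have h3 : n + 1 ≤ n := by exact_mod_cast h2
      omega
  obtain ⟨u, hu⟩ := Multiset.exists_smul_of_dvd_count _ key
  refine ⟨u.prod, ?_⟩
  rw [← Multiset.prod_nsmul, ← hu, Ideal.prod_normalizedFactors_eq_self hI0]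

end Pool.Agent.D0H54.GD
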